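import Mathlib
import Pool.Agent.Helper54.TSCyl
import Pool.Agent.Helper85.OWN.TSO

/-!
# MP_4bb23b_gt: the inequality `N(X × Y) ≥ N(X) + N(Y) - 1` fails

The counterexample is a product of the circle and a Euclidean space of dimension between two
and five.
-/

set_option autoImplicit false

namespace Pool.Agent.Results.MP_4bb23b_gt.CircleTimesEuclidean

open Topology Module Function
open scoped Manifold ContDiff

section definitions

variable {F : Type*} [NormedAddCommGroup F] [NormedSpace ℝ F]

/-- Two affine subspaces are skew if they have no common point and their direction spaces meet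
only in zero. -/
def AreSkew (A B : AffineSubspace ℝ F) : Prop :=
  (∀ z : F, ¬(z ∈ A ∧ z ∈ B)) ∧ A.direction ⊓ B.direction = ⊥

variable {E : Type*} [NormedAddCommGroup E] [NormedSpace ℝ E]
  {H : Type*} [TopologicalSpace H] (I : ModelWithCorners ℝ E H)
  {M : Type*} [TopologicalSpace M] [ChartedSpace H M]

/-- The differential of `f : M → F` at `x`, as a linear map from the tangent space of `M` at `x`
to `F` (the tangent space of the vector space `F` at `f x` is identified with `F`). -/
noncomputable def differential (f : M → F) (x : M) : TangentSpace I x →L[ℝ] F :=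
  (NormedSpace.fromTangentSpace (f x)).toContinuousLinearMap ∘L mfderiv I 𝓘(ℝ, F) f x

/-- The affine tangent plane of `f : M → F` at `x`: the affine subspace through the point `f x`
whose direction is the image of the tangent space of `M` at `x` under the differential. -/
noncomputable def tangentPlane (f : M → F) (x : M) : AffineSubspace ℝ F :=
  AffineSubspace.mk' (f x) (LinearMap.range (differential I f x).toLinearMap)

/-- A totally skew embedding: a smooth immersion (smooth, and every differential is injective)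
which is a topological embedding and such that the affine tangent planes at any two points with
different images are skew. -/
structure IsTotallySkewEmbedding (f : M → F) : Prop where
  smooth : ContMDiff I 𝓘(ℝ, F) ∞ f
  immersion : ∀ x : M, Injective (differential I f x)
  embedding : IsEmbedding f
  skew : ∀ x y : M, f x ≠ f y → AreSkew (tangentPlane I f x) (tangentPlane I f y)

variable (M) in
/-- The set of all `N` such that `M` has a totally skew embedding in `N`-dimensional Euclidean
space. Its least element is the number `N(M)` of the problem. -/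
def skewDimensions : Set ℕ :=
  {N : ℕ | ∃ f : M → EuclideanSpace ℝ (Fin N), IsTotallySkewEmbedding I f}

end definitions

/-! ## Translation into the kernel condition used by the proof -/

open Pool.Agent.Helper54.TS Pool.Agent.Helper85.TSO

section translation

variable {F : Type*} [NormedAddCommGroup F] [NormedSpace ℝ F]
  {E : Type*} [NormedAddCommGroup E] [NormedSpace ℝ E]
  {H : Type*} [TopologicalSpace H] (I : ModelWithCorners ℝ E H) [I.Boundaryless]
  {M : Type*} [TopologicalSpace M] [ChartedSpace H M]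

theorem differential_eq {f : M → F} {x : M} (hf : MDifferentiableAt I 𝓘(ℝ, F) f x) (u : E) :
    differential I f x u = dch I f x u := by
  have h1 : mfderiv I 𝓘(ℝ, F) f x = _ := hf.mfderiv
  have h2 : fderivWithin ℝ (writtenInExtChartAt I 𝓘(ℝ, F) x f) (Set.range I)
      ((extChartAt I x) x) = dch I f x := by
    rw [I.range_eq_univ, fderivWithin_univ]
    rfl
  have h3 : mfderiv I 𝓘(ℝ, F) f x u = dch I f x u := by
    rw [h1, ← h2]
    rfl
  exact h3

theorem mem_tangentPlane {f : M → F} {x : M} (hf : MDifferentiableAt I 𝓘(ℝ, F) f x) (z : F) :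
    z ∈ tangentPlane I f x ↔ ∃ u : E, z = f x + dch I f x u := by
  rw [tangentPlane, AffineSubspace.mem_mk', vsub_eq_sub, LinearMap.mem_range]
  constructor
  · rintro ⟨u, hu⟩
    refine ⟨u, ?_⟩
    rw [← differential_eq I hf u, ← sub_eq_iff_eq_add']
    exact hu.symm
  · rintro ⟨u, hu⟩
    refine ⟨u, ?_⟩
    have := differential_eq I hf u
    rw [hu, add_sub_cancel_left, ← this]
    rfl

theorem mem_direction {f : M → F} {x : M} (hf : MDifferentiableAt I 𝓘(ℝ, F) f x) (z : F) :
    z ∈ (tangentPlane I f x).direction ↔ ∃ u : E, z = dch I f x u := by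
  rw [tangentPlane, AffineSubspace.direction_mk', LinearMap.mem_range]
  constructor
  · rintro ⟨u, hu⟩
    refine ⟨u, ?_⟩
    rw [← differential_eq I hf u]
    exact hu.symm
  · rintro ⟨u, hu⟩
    refine ⟨u, ?_⟩
    rw [hu, ← differential_eq I hf u]
    rfl

theorem isTotallySkewEmbedding_iff [Nontrivial M] (f : M → F) :
    IsTotallySkewEmbedding I f ↔
      ContMDiff I 𝓘(ℝ, F) ((⊤ : ℕ∞) : WithTop ℕ∞) f ∧ IsEmbedding f ∧ Skew I f := by
  constructor
  · rintro ⟨hsm, him, hem, hsk⟩
    have hd : ∀ x, MDifferentiableAt I 𝓘(ℝ, F) f x := fun x =>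
      (hsm x).mdifferentiableAt (by simp)
    refine ⟨hsm, hem, ?_⟩
    intro p q hpq u v t heq
    have heq' : dch I f p u + dch I f q v + t • (f q - f p) = 0 := heq
    have hinj : ∀ x (w : E), dch I f x w = 0 → w = 0 := fun x w hw => by
      rw [← differential_eq I (hd x)] at hw
      exact him x (hw.trans (map_zero (differential I f x)).symm)
    obtain ⟨h1, h2⟩ := hsk p q (fun h => hpq (hem.injective h))
    have ht : t = 0 := by
      by_contra ht
      apply h1 (f p + dch I f p (-(t⁻¹ • u)))
      rw [mem_tangentPlane I (hd p), mem_tangentPlane I (hd q)]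
      refine ⟨⟨_, rfl⟩, t⁻¹ • v, ?_⟩
      have h3 : t⁻¹ • (dch I f p u + dch I f q v + t • (f q - f p)) = 0 := by
        rw [heq', smul_zero]
      rw [smul_add, smul_add, smul_smul, inv_mul_cancel₀ ht, one_smul] at h3
      rw [map_neg, map_smul, map_smul, ← sub_eq_zero, ← neg_eq_zero, ← h3]
      abel
    subst ht
    rw [zero_smul, add_zero] at heq'
    have h3 : dch I f p u ∈ (tangentPlane I f p).direction ⊓ (tangentPlane I f q).direction := by
      rw [Submodule.mem_inf, mem_direction I (hd p), mem_direction I (hd q)]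
      refine ⟨⟨u, rfl⟩, -v, ?_⟩
      rw [map_neg]
      exact eq_neg_of_add_eq_zero_left heq'
    rw [h2, Submodule.mem_bot] at h3
    have h4 : dch I f q v = 0 := by rwa [h3, zero_add] at heq'
    exact ⟨hinj p u h3, hinj q v h4, rfl⟩
  · rintro ⟨hsm, hem, hsk⟩
    have hd : ∀ x, MDifferentiableAt I 𝓘(ℝ, F) f x := fun x =>
      (hsm x).mdifferentiableAt (by simp)
    have hsk' : ∀ p q : M, p ≠ q → ∀ (u v : E) (t : ℝ),
        dch I f p u + dch I f q v + t • (f q - f p) = 0 → u = 0 ∧ v = 0 ∧ t = 0 := hsk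
    refine ⟨hsm, ?_, hem, ?_⟩
    · intro x
      obtain ⟨y, hy⟩ := exists_ne x
      rw [injective_iff_map_eq_zero]
      intro u hu
      have hu' : dch I f x u = 0 := (differential_eq I (hd x) u).symm.trans hu
      exact (hsk' x y hy.symm u 0 0 (by rw [hu']; simp)).1
    intro p q hpq
    have hpq' : p ≠ q := fun h => hpq (congrArg f h)
    constructor
    · rintro z ⟨hz1, hz2⟩
      rw [mem_tangentPlane I (hd p)] at hz1
      rw [mem_tangentPlane I (hd q)] at hz2
      obtain ⟨u, hu⟩ := hz1
      obtain ⟨v, hv⟩ := hz2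
      have h := hsk' p q hpq' u (-v) (-1) (by
        have : f p + dch I f p u = f q + dch I f q v := by rw [← hu, ← hv]
        rw [← sub_eq_zero] at this
        rw [map_neg, ← this, neg_smul, one_smul]
        abel)
      have := h.2.2
      norm_num at this
    · rw [Submodule.eq_bot_iff]
      intro z hz
      rw [Submodule.mem_inf, mem_direction I (hd p), mem_direction I (hd q)] at hz
      obtain ⟨⟨u, hu⟩, ⟨v, hv⟩⟩ := hz
      have h := hsk' p q hpq' u (-v) 0 (by rw [map_neg, ← hu, ← hv]; simp)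
      rw [hu, h.1, map_zero]

end translation

theorem mem_euclidean_iff {j N : ℕ} (hj : 1 ≤ j) :
    N ∈ skewDimensions (𝓡 j) (EuclideanSpace ℝ (Fin j)) ↔ PE j N := by
  have : Nonempty (Fin j) := ⟨⟨0, hj⟩⟩
  have hnt : Nontrivial (EuclideanSpace ℝ (Fin j)) := inferInstance
  constructor
  · rintro ⟨f, hf⟩
    obtain ⟨h1, h2, h3⟩ := (isTotallySkewEmbedding_iff (𝓡 j) f).1 hf
    refine ⟨f, contMDiff_iff_contDiff.1 h1, h2, ?_⟩
    intro x y hxy u v t heq
    refine h3 x y hxy u v t ?_
    change dch (𝓡 j) f x u + dch (𝓡 j) f y v + t • (f y - f x) = 0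
    rw [dch_self, dch_self]
    exact heq
  · rintro ⟨f, h1, h2, h3⟩
    refine ⟨f, (isTotallySkewEmbedding_iff (𝓡 j) f).2 ⟨contMDiff_iff_contDiff.2 h1, h2, ?_⟩⟩
    intro x y hxy u v t heq
    refine h3 x y hxy u v t ?_
    have h4 : dch (𝓡 j) f x u + dch (𝓡 j) f y v + t • (f y - f x) = 0 := heq
    rwa [dch_self, dch_self] at h4

theorem circle_isLeast : IsLeast (skewDimensions (𝓡 1) Circle) 4 := by
  have hnt : Nontrivial Circle := ⟨⟨1, -1, fun h => by
    have := congrArg (fun z : Circle => (z : ℂ).re) h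
    norm_num at this⟩⟩
  constructor
  · obtain ⟨f, h1, h2, h3⟩ := circle_four
    exact ⟨f, (isTotallySkewEmbedding_iff (𝓡 1) f).2 ⟨h1, h2, h3⟩⟩
  · rintro N ⟨f, hf⟩
    obtain ⟨h1, -, h3⟩ := (isTotallySkewEmbedding_iff (𝓡 1) f).1 hf
    exact circle_bound h1 h3

/-- **Negative answer.** There is `j` with `2 ≤ j ≤ 5` such that `X = Circle` and `Y = ℝ^j`
violate the inequality: `N(X) = 4`, and with `b = N(Y)` and `c = N(X × Y)` one has
`c ≤ 4 + b - 2`. -/
theorem result : ∃ j : ℕ, 2 ≤ j ∧ j ≤ 5 ∧ ∃ b c : ℕ,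
    IsLeast (skewDimensions (𝓡 1) Circle) 4 ∧
    IsLeast (skewDimensions (𝓡 j) (EuclideanSpace ℝ (Fin j))) b ∧
    IsLeast (skewDimensions ((𝓡 1).prod (𝓡 j)) (Circle × EuclideanSpace ℝ (Fin j))) c ∧
    c + 2 ≤ 4 + b := by
  classical
  have hnt : ∀ k : ℕ, Nontrivial (Circle × EuclideanSpace ℝ (Fin (k + 1))) := fun k =>
    inferInstance
  have h6 : PE 6 17 := exists_embedding_six
  -- the cylinder
  have hcyl : ∀ k N : ℕ, PE (k + 2) N →
      N ∈ skewDimensions ((𝓡 1).prod (𝓡 (k + 1))) (Circle × EuclideanSpace ℝ (Fin (k + 1))) := by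
    intro k N h
    obtain ⟨f, h1, h2, h3⟩ := h.cyl
    exact ⟨f, (isTotallySkewEmbedding_iff _ f).2 ⟨h1, h2, h3⟩⟩
  have hleast : ∀ S : Set ℕ, S.Nonempty → ∃ m, IsLeast S m := fun S hS =>
    ⟨sInf S, Nat.sInf_mem hS, fun n hn => Nat.sInf_le hn⟩
  -- the step
  by_contra hno
  have step : ∀ k N : ℕ, 1 ≤ k → k ≤ 4 → PE (k + 2) N → ∃ b, b + 3 ≤ N ∧ PE (k + 1) b := by
    intro k N hk1 hk4 hPE
    obtain ⟨b, hb⟩ := hleast (skewDimensions (𝓡 (k + 1)) (EuclideanSpace ℝ (Fin (k + 1))))
      ⟨17, (mem_euclidean_iff (by omega)).2 (PE_restrict (by omega) h6)⟩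
    obtain ⟨c, hc⟩ := hleast (skewDimensions ((𝓡 1).prod (𝓡 (k + 1)))
      (Circle × EuclideanSpace ℝ (Fin (k + 1)))) ⟨N, hcyl k N hPE⟩
    refine ⟨b, ?_, (mem_euclidean_iff (by omega)).1 hb.1⟩
    by_contra hlt
    have hcN : c ≤ N := hc.2 (hcyl k N hPE)
    exact hno ⟨k + 1, by omega, by omega, b, c, circle_isLeast, hb, hc, by omega⟩
  obtain ⟨b5, hb5, h5⟩ := step 4 17 (by norm_num) le_rfl h6
  obtain ⟨b4, hb4, h4⟩ := step 3 b5 (by norm_num) (by norm_num) h5
  obtain ⟨b3, hb3, h3⟩ := step 2 b4 (by norm_num) (by norm_num) h4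
  obtain ⟨b2, hb2, h2⟩ := step 1 b3 (by norm_num) (by norm_num) h3
  have := PE_two h2
  omega

end Pool.Agent.Results.MP_4bb23b_gt.CircleTimesEuclidean
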